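import Pool.Agent.U922.XP.D

/-! # Random weights: the moments of the power-sum fibres -/

set_option autoImplicit false
set_option linter.unusedSectionVars false
set_option linter.unusedVariables false

open Finset MeasureTheory ProbabilityTheory

namespace Pool.Agent.U922.XQ

open Pool.Agent.U922.MV
open Pool.Agent.W928.MW (e e_add e_norm)
open Pool.Agent.TH181.MW (tup e_sum)

/-- weighted block sum -/
noncomputable def ws (m M : ℕ) (w : ℕ → ℝ) (c : Fin m → ℝ) : ℂ :=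
  ∑ n ∈ Icc 1 M, (w n : ℂ) * e (lo m c n)

/-- weight of a fibre -/
noncomputable def wp (s m M : ℕ) (w : ℕ → ℝ) (v : Fin m → ℕ) : ℝ := ∑ z ∈ pv s m M v, ∏ i, w (z i)

noncomputable def WQ (s m M : ℕ) (w : ℕ → ℝ) : ℝ := ∑ v ∈ VV s m M, (wp s m M w v) ^ 2

theorem ws_pow (s m M : ℕ) (w : ℕ → ℝ) (c : Fin m → ℝ) :
    ws m M w c ^ s = ∑ v ∈ VV s m M, e (∑ j, c j * v j) * (wp s m M w v : ℂ) := by
  have h1 : ws m M w c ^ s = ∑ z ∈ tup s M, e (∑ j, c j * (pw s m z j : ℝ)) * ((∏ i, w (z i) : ℝ) : ℂ) := by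
    unfold ws tup
    rw [Finset.sum_pow']
    apply Finset.sum_congr rfl
    intro z _
    rw [Finset.prod_mul_distrib, ← e_sum, mul_comm]
    congr 1
    · congr 1
      unfold lo pw
      rw [Finset.sum_comm]
      refine Finset.sum_congr rfl fun j _ => ?_
      push_cast
      rw [Finset.mul_sum]
    · push_cast
      rfl
  rw [h1, ← Finset.sum_fiberwise_of_maps_to (s := tup s M) (t := VV s m M)
    (g := fun z : Fin s → ℕ => pw s m z) (fun z hz => pw_mem s m M z hz)]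
  apply Finset.sum_congr rfl
  intro v _
  unfold wp pv
  push_cast
  rw [Finset.mul_sum]
  apply Finset.sum_congr rfl
  intro z hz
  rw [Finset.mem_filter] at hz
  rw [hz.2]

theorem sup_ws (s m M : ℕ) (w : ℕ → ℝ) (c : Fin m → ℝ) :
    ‖ws m M w c‖ ^ (2 * s) ≤ ((VV s m M).card : ℝ) * WQ s m M w := by
  have h1 : ‖ws m M w c‖ ^ (2 * s) = ‖ws m M w c ^ s‖ ^ 2 := by
    rw [norm_pow, ← pow_mul, mul_comm]
  rw [h1, ws_pow]
  have h2 : ‖∑ v ∈ VV s m M, e (∑ j, c j * v j) * (wp s m M w v : ℂ)‖ ≤ ∑ v ∈ VV s m M, |wp s m M w v| := by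
    refine (norm_sum_le _ _).trans (le_of_eq ?_)
    apply Finset.sum_congr rfl
    intro v _
    rw [norm_mul, e_norm, one_mul, Complex.norm_real, Real.norm_eq_abs]
  have h3 := sq_sum_le_card_mul_sum_sq (s := VV s m M) (f := fun v => |wp s m M w v|)
  simp only [sq_abs] at h3
  refine le_trans ?_ h3
  exact pow_le_pow_left₀ (norm_nonneg _) h2 2

variable {Ω : Type*} [MeasurableSpace Ω] {μ : Measure Ω} [IsProbabilityMeasure μ]

/-- hypotheses on the centred weights -/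
structure Cen (μ : Measure Ω) (x : ℕ → Ω → ℝ) (v : ℕ → ℝ) : Prop where
  meas : ∀ n, Measurable (x n)
  ind : iIndepFun x μ
  bdd : ∀ n ω, |x n ω| ≤ 1
  mean : ∀ n, ∫ ω, x n ω ∂μ = 0
  var : ∀ n, ∫ ω, (x n ω) ^ 2 ∂μ ≤ v n

theorem Cen.shift {x : ℕ → Ω → ℝ} {v : ℕ → ℝ} (h : Cen μ x v) (a : ℕ) :
    Cen μ (fun n => x (a + n)) (fun n => v (a + n)) :=
  ⟨fun n => h.meas _, h.ind.precomp (fun _ _ hh => Nat.add_left_cancel hh), fun n ω => h.bdd _ ω, fun n => h.mean _,
    fun n => h.var _⟩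

theorem Cen.v_nonneg {x : ℕ → Ω → ℝ} {v : ℕ → ℝ} (h : Cen μ x v) (n : ℕ) : 0 ≤ v n :=
  (integral_nonneg fun _ => sq_nonneg _).trans (h.var n)

theorem Cen.prodE {x : ℕ → Ω → ℝ} {v : ℕ → ℝ} (h : Cen μ x v) (I : Finset ℕ) (c : ℕ → ℕ) :
    ∫ ω, ∏ n ∈ I, x n ω ^ c n ∂μ = ∏ n ∈ I, ∫ ω, x n ω ^ c n ∂μ := by
  have h1 : iIndepFun (fun n : ↥I => x n) μ := h.ind.precomp Subtype.val_injective
  have h2 := h1.integral_fun_prod_comp (f := fun (n : ↥I) (t : ℝ) => t ^ c n) (fun n => (h.meas n).aemeasurable)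
    (fun n => (measurable_id.pow_const _).aestronglyMeasurable)
  rw [← Finset.prod_coe_sort I (fun n => ∫ ω, x n ω ^ c n ∂μ)]
  rw [← h2]
  congr 1
  funext ω
  rw [← Finset.prod_coe_sort I (fun n => x n ω ^ c n)]

theorem Cen.pow_le {x : ℕ → Ω → ℝ} {v : ℕ → ℝ} (h : Cen μ x v) (n c : ℕ) (hc : 2 ≤ c) :
    |∫ ω, x n ω ^ c ∂μ| ≤ v n := by
  have hint : Integrable (fun ω => (x n ω) ^ 2) μ := by
    refine Integrable.of_bound (C := 1) ((h.meas n).pow_const 2).aestronglyMeasurable (Filter.Eventually.of_forall fun ω => ?_)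
    rw [Real.norm_eq_abs, abs_pow]
    exact pow_le_one₀ (abs_nonneg _) (h.bdd n ω)
  have h1 : |∫ ω, x n ω ^ c ∂μ| ≤ ∫ ω, (x n ω) ^ 2 ∂μ := by
    rw [← Real.norm_eq_abs]
    refine norm_integral_le_of_norm_le hint (Filter.Eventually.of_forall fun ω => ?_)
    rw [Real.norm_eq_abs, abs_pow, ← sq_abs (x n ω)]
    exact pow_le_pow_of_le_one (abs_nonneg _) (h.bdd n ω) hc
  exact h1.trans (h.var n)

/-- expectation of a product along a tuple -/
theorem Cen.tuple {x : ℕ → Ω → ℝ} {v : ℕ → ℝ} (h : Cen μ x v) {ι : Type} [Fintype ι] [DecidableEq ι] (u : ι → ℕ) :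
    |∫ ω, ∏ i, x (u i) ω ∂μ| ≤
      if 2 * (univ.image u).card ≤ Fintype.card ι then ∏ n ∈ univ.image u, v n else 0 := by
  have h1 : ∀ ω, ∏ i, x (u i) ω = ∏ n ∈ univ.image u, x n ω ^ (univ.filter (fun i => u i = n)).card := by
    intro ω
    rw [← Finset.prod_fiberwise_of_maps_to (s := (univ : Finset ι)) (t := univ.image u) (g := u)
      (fun i hi => Finset.mem_image_of_mem u hi)]
    refine Finset.prod_congr rfl fun n _ => ?_
    rw [Finset.prod_congr rfl (fun i hi => by rw [(Finset.mem_filter.1 hi).2])]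
    rw [Finset.prod_const]
  simp_rw [h1]
  rw [h.prodE, Finset.abs_prod]
  by_cases hall : ∀ n ∈ univ.image u, 2 ≤ (univ.filter (fun i => u i = n)).card
  · have h2 : 2 * (univ.image u).card ≤ Fintype.card ι := by
      rw [← Finset.card_univ, Finset.card_eq_sum_card_image u univ, mul_comm, ← smul_eq_mul, ← Finset.sum_const]
      exact Finset.sum_le_sum hall
    rw [if_pos h2]
    exact Finset.prod_le_prod (fun n _ => abs_nonneg _) (fun n hn => h.pow_le n _ (hall n hn))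
  · push Not at hall
    obtain ⟨n, hn, hlt⟩ := hall
    have h3 : (univ.filter (fun i => u i = n)).card = 1 := by
      obtain ⟨i, -, hi⟩ := Finset.mem_image.1 hn
      have : 0 < (univ.filter (fun i => u i = n)).card :=
        Finset.card_pos.2 ⟨i, Finset.mem_filter.2 ⟨Finset.mem_univ _, hi⟩⟩
      omega
    have h4 : ∏ n ∈ univ.image u, |∫ ω, x n ω ^ (univ.filter (fun i => u i = n)).card ∂μ| = 0 := by
      apply Finset.prod_eq_zero hn
      rw [h3]
      simp only [pow_one]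
      rw [h.mean n, abs_zero]
    rw [h4]
    split_ifs
    · exact Finset.prod_nonneg fun n _ => h.v_nonneg n
    · exact le_rfl

/-- **moment bound** -/
theorem Cen.total {x : ℕ → Ω → ℝ} {v : ℕ → ℝ} (h : Cen μ x v) {ι : Type} [Fintype ι] [DecidableEq ι] (s : ℕ)
    (hι : Fintype.card ι = 2 * s) (J : Finset ℕ) (T : ℝ) (hT1 : 1 ≤ T) (hT : ∑ n ∈ J, v n ≤ T) :
    ∑ u ∈ Fintype.piFinset (fun _ : ι => J), |∫ ω, ∏ i, x (u i) ω ∂μ| ≤ 3 * (s : ℝ) ^ (2 * s) * T ^ s := by
  have hT0 : 0 < T := by linarith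
  have h1 : ∑ u ∈ Fintype.piFinset (fun _ : ι => J), |∫ ω, ∏ i, x (u i) ω ∂μ| ≤
      ∑ I ∈ J.powerset, ((s : ℝ) ^ (2 * s) * T ^ s) * ∏ n ∈ I, (v n / T) := by
    rw [← Finset.sum_fiberwise_of_maps_to (s := Fintype.piFinset (fun _ : ι => J)) (t := J.powerset)
      (g := fun u : ι → ℕ => univ.image u) (by
        intro u hu
        rw [Finset.mem_powerset]
        intro n hn
        obtain ⟨i, -, rfl⟩ := Finset.mem_image.1 hn
        exact (Fintype.mem_piFinset.1 hu) i)]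
    refine Finset.sum_le_sum fun I _ => ?_
    have hprod0 : 0 ≤ ∏ n ∈ I, (v n / T) := Finset.prod_nonneg fun n _ => div_nonneg (h.v_nonneg n) hT0.le
    by_cases hI : I.card ≤ s
    · have h2 : ∀ u ∈ (Fintype.piFinset (fun _ : ι => J)).filter (fun u => univ.image u = I),
          |∫ ω, ∏ i, x (u i) ω ∂μ| ≤ T ^ s * ∏ n ∈ I, (v n / T) := by
        intro u hu
        have hu2 := (Finset.mem_filter.1 hu).2
        have h3 := h.tuple u
        rw [hu2, hι, if_pos (by omega)] at h3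
        refine h3.trans ?_
        have h4 : ∏ n ∈ I, v n = T ^ I.card * ∏ n ∈ I, (v n / T) := by
          rw [← Finset.prod_const, ← Finset.prod_mul_distrib]
          refine Finset.prod_congr rfl fun n _ => ?_
          field_simp
        rw [h4]
        exact mul_le_mul_of_nonneg_right (pow_le_pow_right₀ hT1 hI) hprod0
      refine (Finset.sum_le_card_nsmul _ _ _ h2).trans ?_
      rw [nsmul_eq_mul]
      have h5 : (((Fintype.piFinset (fun _ : ι => J)).filter (fun u => univ.image u = I)).card : ℝ) ≤ (s : ℝ) ^ (2 * s) := by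
        have h6 : ((Fintype.piFinset (fun _ : ι => J)).filter (fun u => univ.image u = I)).card ≤
            (Fintype.piFinset (fun _ : ι => I)).card := by
          apply Finset.card_le_card
          intro u hu
          have hu2 := (Finset.mem_filter.1 hu).2
          rw [Fintype.mem_piFinset]
          intro i
          rw [← hu2]
          exact Finset.mem_image_of_mem u (Finset.mem_univ i)
        rw [Fintype.card_piFinset, Finset.prod_const, Finset.card_univ, hι] at h6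
        calc (((Fintype.piFinset (fun _ : ι => J)).filter (fun u => univ.image u = I)).card : ℝ) ≤
              ((I.card ^ (2 * s) : ℕ) : ℝ) := by exact_mod_cast h6
          _ ≤ (s : ℝ) ^ (2 * s) := by
            push_cast
            exact pow_le_pow_left₀ (by positivity) (by exact_mod_cast hI) _
      calc _ ≤ (s : ℝ) ^ (2 * s) * (T ^ s * ∏ n ∈ I, (v n / T)) := mul_le_mul_of_nonneg_right h5 (by positivity)
        _ = _ := by ring
    · have h2 : ∀ u ∈ (Fintype.piFinset (fun _ : ι => J)).filter (fun u => univ.image u = I),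
          |∫ ω, ∏ i, x (u i) ω ∂μ| ≤ 0 := by
        intro u hu
        have hu2 := (Finset.mem_filter.1 hu).2
        have h3 := h.tuple u
        rw [hu2, hι, if_neg (by omega)] at h3
        exact h3
      refine (Finset.sum_nonpos h2).trans (by positivity)
  refine h1.trans ?_
  rw [← Finset.mul_sum, ← Finset.prod_one_add]
  have h2 : ∏ n ∈ J, (1 + v n / T) ≤ 3 := by
    refine (Real.prod_one_add_le_exp_sum J (f := fun n => v n / T) (fun n => div_nonneg (h.v_nonneg n) hT0.le)).trans ?_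
    have h3 : ∑ n ∈ J, v n / T ≤ 1 := by
      rw [← Finset.sum_div, div_le_one hT0]
      exact hT
    exact (Real.exp_le_exp.2 h3).trans (by linarith [Real.exp_one_lt_d9])
  calc (s : ℝ) ^ (2 * s) * T ^ s * ∏ n ∈ J, (1 + v n / T) ≤ (s : ℝ) ^ (2 * s) * T ^ s * 3 :=
        mul_le_mul_of_nonneg_left h2 (by positivity)
    _ = _ := by ring

theorem Cen.prod_int {x : ℕ → Ω → ℝ} {v : ℕ → ℝ} (h : Cen μ x v) {ι : Type} [Fintype ι] (u : ι → ℕ) :
    Integrable (fun ω => ∏ i, x (u i) ω) μ := by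
  refine Integrable.of_bound (C := 1) ?_ (Filter.Eventually.of_forall fun ω => ?_)
  · exact (Finset.measurable_prod _ fun i _ => h.meas (u i)).aestronglyMeasurable
  · rw [Real.norm_eq_abs, Finset.abs_prod]
    exact Finset.prod_le_one (fun i _ => abs_nonneg _) fun i _ => h.bdd _ ω

theorem WQ_expand (s m M : ℕ) (w : ℕ → ℝ) : WQ s m M w = ∑ v ∈ VV s m M, ∑ z ∈ pv s m M v, ∑ z' ∈ pv s m M v,
    ∏ i, w (Sum.elim z z' i) := by
  unfold WQ wp
  refine Finset.sum_congr rfl fun v _ => ?_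
  rw [sq, Finset.sum_mul_sum]
  refine Finset.sum_congr rfl fun z _ => Finset.sum_congr rfl fun z' _ => ?_
  rw [Fintype.prod_sum_type]
  simp

theorem Cen.int_WQ {x : ℕ → Ω → ℝ} {v : ℕ → ℝ} (h : Cen μ x v) (s m M : ℕ) (T : ℝ) (hT1 : 1 ≤ T)
    (hT : ∑ n ∈ Icc 1 M, v n ≤ T) :
    ∫ ω, WQ s m M (fun n => x n ω) ∂μ ≤ 3 * (s : ℝ) ^ (2 * s) * T ^ s := by
  have h1 : ∫ ω, WQ s m M (fun n => x n ω) ∂μ = ∑ v ∈ VV s m M, ∑ z ∈ pv s m M v, ∑ z' ∈ pv s m M v,
      ∫ ω, ∏ i, x (Sum.elim z z' i) ω ∂μ := by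
    simp_rw [WQ_expand]
    rw [integral_finsetSum _ fun v _ => integrable_finsetSum _ fun z _ => integrable_finsetSum _ fun z' _ => h.prod_int _]
    refine Finset.sum_congr rfl fun v _ => ?_
    rw [integral_finsetSum _ fun z _ => integrable_finsetSum _ fun z' _ => h.prod_int _]
    refine Finset.sum_congr rfl fun z _ => ?_
    rw [integral_finsetSum _ fun z' _ => h.prod_int _]
  rw [h1]
  have h2 : ∑ v ∈ VV s m M, ∑ z ∈ pv s m M v, ∑ z' ∈ pv s m M v, ∫ ω, ∏ i, x (Sum.elim z z' i) ω ∂μ ≤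
      ∑ z ∈ tup s M, ∑ z' ∈ tup s M, |∫ ω, ∏ i, x (Sum.elim z z' i) ω ∂μ| := by
    rw [← Finset.sum_fiberwise_of_maps_to (s := tup s M) (t := VV s m M)
      (g := fun z : Fin s → ℕ => pw s m z) (fun z hz => pw_mem s m M z hz)]
    refine Finset.sum_le_sum fun v _ => ?_
    refine Finset.sum_le_sum fun z _ => ?_
    refine (Finset.sum_le_sum fun z' _ => le_abs_self _).trans ?_
    exact Finset.sum_le_sum_of_subset_of_nonneg (Finset.filter_subset _ _) fun _ _ _ => abs_nonneg _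
  refine h2.trans ?_
  have h3 := h.total (ι := Fin s ⊕ Fin s) s (by rw [Fintype.card_sum, Fintype.card_fin]; ring) (Icc 1 M) T hT1 hT
  refine le_trans ?_ h3
  rw [← Finset.sum_product']
  have h4 : ∑ p ∈ tup s M ×ˢ tup s M, |∫ ω, ∏ i, x (Sum.elim p.1 p.2 i) ω ∂μ| =
      ∑ u ∈ (tup s M ×ˢ tup s M).image (fun p : (Fin s → ℕ) × (Fin s → ℕ) => Sum.elim p.1 p.2),
        |∫ ω, ∏ i, x (u i) ω ∂μ| := by
    rw [Finset.sum_image]
    rintro ⟨z, z'⟩ _ ⟨y, y'⟩ _ hh
    simp only at hh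
    refine Prod.ext (funext fun i => ?_) (funext fun i => ?_)
    · exact congrFun hh (Sum.inl i)
    · exact congrFun hh (Sum.inr i)
  rw [h4]
  refine Finset.sum_le_sum_of_subset_of_nonneg ?_ fun _ _ _ => abs_nonneg _
  intro u hu
  obtain ⟨⟨z, z'⟩, hz, rfl⟩ := Finset.mem_image.1 hu
  rw [Finset.mem_product] at hz
  unfold tup at hz
  rw [Fintype.mem_piFinset, Fintype.mem_piFinset] at hz
  rw [Fintype.mem_piFinset]
  rintro (i | i)
  · exact hz.1 i
  · exact hz.2 i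

theorem WQ_nonneg (s m M : ℕ) (w : ℕ → ℝ) : 0 ≤ WQ s m M w := by
  unfold WQ
  positivity

theorem Cen.meas_WQ {x : ℕ → Ω → ℝ} {v : ℕ → ℝ} (h : Cen μ x v) (s m M : ℕ) :
    Measurable (fun ω => WQ s m M (fun n => x n ω)) := by
  unfold WQ wp
  refine Finset.measurable_sum _ fun v _ => ?_
  refine Measurable.pow_const ?_ 2
  refine Finset.measurable_sum _ fun z _ => ?_
  exact Finset.measurable_prod _ fun i _ => h.meas _

theorem Cen.integrable_WQ {x : ℕ → Ω → ℝ} {v : ℕ → ℝ} (h : Cen μ x v) (s m M : ℕ) :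
    Integrable (fun ω => WQ s m M (fun n => x n ω)) μ := by
  simp_rw [WQ_expand]
  exact integrable_finsetSum _ fun v _ => integrable_finsetSum _ fun z _ => integrable_finsetSum _ fun z' _ => h.prod_int _

theorem Cen.lint_WQ {x : ℕ → Ω → ℝ} {v : ℕ → ℝ} (h : Cen μ x v) (s m M : ℕ) (T : ℝ) (hT1 : 1 ≤ T)
    (hT : ∑ n ∈ Icc 1 M, v n ≤ T) :
    ∫⁻ ω, ENNReal.ofReal (WQ s m M (fun n => x n ω)) ∂μ ≤ ENNReal.ofReal (3 * (s : ℝ) ^ (2 * s) * T ^ s) := by
  rw [← ofReal_integral_eq_lintegral_ofReal (h.integrable_WQ s m M) (Filter.Eventually.of_forall fun ω => WQ_nonneg _ _ _ _)]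
  exact ENNReal.ofReal_le_ofReal (h.int_WQ s m M T hT1 hT)

end Pool.Agent.U922.XQ
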