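import Pool.Agent.U922.XQ.A

/-! # Random weights: almost surely all blocks and all polynomials at once -/

set_option autoImplicit false
set_option linter.unusedSectionVars false
set_option linter.unusedVariables false

open Finset MeasureTheory ProbabilityTheory

namespace Pool.Agent.U922.XQ

open Pool.Agent.U922.MV
open Pool.Agent.TH181.MW (tup)

variable {Ω : Type*} [MeasurableSpace Ω] {μ : Measure Ω} [IsProbabilityMeasure μ]

/-- the variance of a block, plus one -/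
noncomputable def TV (v : ℕ → ℝ) (a M : ℕ) : ℝ := 1 + ∑ n ∈ Icc 1 M, v (a + n)

theorem Cen.one_le_TV {x : ℕ → Ω → ℝ} {v : ℕ → ℝ} (h : Cen μ x v) (a M : ℕ) : 1 ≤ TV v a M := by
  unfold TV
  have : 0 ≤ ∑ n ∈ Icc 1 M, v (a + n) := Finset.sum_nonneg fun n _ => h.v_nonneg _
  linarith

theorem Cen.ae_fin {x : ℕ → Ω → ℝ} {v : ℕ → ℝ} (h : Cen μ x v) (s m : ℕ) (hs : 1 ≤ s) :
    ∀ᵐ ω ∂μ, ∃ K : ℝ, 1 ≤ K ∧ ∀ a M : ℕ, 1 ≤ M → M ≤ a →
      WQ s m M (fun n => x (a + n) ω) ≤ K * ((a : ℝ) ^ 3 * TV v a M ^ s) := by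
  obtain ⟨C, hC⟩ : ∃ C : ℝ, C = 3 * (s : ℝ) ^ (2 * s) := ⟨_, rfl⟩
  have hC0 : 0 ≤ C := by rw [hC]; positivity
  set F : ℕ → Ω → ENNReal := fun a ω => ∑ M ∈ Icc 1 a,
    ENNReal.ofReal (WQ s m M (fun n => x (a + n) ω)) * ENNReal.ofReal (1 / ((a : ℝ) ^ 3 * TV v a M ^ s)) with hF
  have hm1 : ∀ a M : ℕ, Measurable (fun ω => ENNReal.ofReal (WQ s m M (fun n => x (a + n) ω))) := fun a M =>
    ((h.shift a).meas_WQ s m M).ennreal_ofReal
  have hmF : ∀ a, Measurable (F a) := by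
    intro a
    rw [hF]
    exact Finset.measurable_sum _ fun M _ => (hm1 a M).mul_const _
  have hFa : ∀ a : ℕ, ∫⁻ ω, F a ω ∂μ ≤ ENNReal.ofReal (C * (1 / (a : ℝ) ^ 2)) := by
    intro a
    rcases Nat.eq_zero_or_pos a with h0 | h0
    · subst h0
      rw [hF]
      simp
    have ha : (0 : ℝ) < a := by exact_mod_cast h0
    have h1 : ∀ M ∈ Icc 1 a, ∫⁻ ω, ENNReal.ofReal (WQ s m M (fun n => x (a + n) ω)) *
        ENNReal.ofReal (1 / ((a : ℝ) ^ 3 * TV v a M ^ s)) ∂μ ≤ ENNReal.ofReal (C * (1 / (a : ℝ) ^ 3)) := by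
      intro M hM
      rw [Finset.mem_Icc] at hM
      have hT1 := h.one_le_TV a M
      have hT0 : 0 < TV v a M := by linarith
      rw [lintegral_mul_const _ (hm1 a M)]
      have h2 := (h.shift a).lint_WQ s m M (TV v a M) hT1 (by unfold TV; linarith)
      refine (mul_le_mul_left h2 _).trans ?_
      rw [← ENNReal.ofReal_mul (by positivity)]
      apply ENNReal.ofReal_le_ofReal
      rw [← hC]
      refine le_of_eq ?_
      field_simp
    have h2 : ∫⁻ ω, F a ω ∂μ = ∑ M ∈ Icc 1 a,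
        ∫⁻ ω, ENNReal.ofReal (WQ s m M (fun n => x (a + n) ω)) * ENNReal.ofReal (1 / ((a : ℝ) ^ 3 * TV v a M ^ s)) ∂μ := by
      rw [hF]
      exact lintegral_finsetSum _ fun M _ => (hm1 a M).mul_const _
    rw [h2]
    refine (Finset.sum_le_sum h1).trans ?_
    rw [Finset.sum_const, Nat.card_Icc, Nat.add_sub_cancel, nsmul_eq_mul, ← ENNReal.ofReal_natCast,
      ← ENNReal.ofReal_mul (by positivity)]
    apply ENNReal.ofReal_le_ofReal
    refine le_of_eq ?_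
    have h5 : (a : ℝ) ^ 3 = a * (a : ℝ) ^ 2 := by ring
    rw [h5]
    field_simp
  have hfin : ∫⁻ ω, ∑' a, F a ω ∂μ ≠ ⊤ := by
    rw [lintegral_tsum fun a => (hmF a).aemeasurable]
    refine ne_top_of_le_ne_top ?_ (ENNReal.tsum_le_tsum hFa)
    exact Summable.tsum_ofReal_ne_top ((Real.summable_one_div_nat_pow.2 one_lt_two).mul_left C)
  have hae := ae_lt_top (Measurable.tsum hmF) hfin
  filter_upwards [hae] with ω hω
  refine ⟨max 1 (∑' a, F a ω).toReal, le_max_left _ _, fun a M hM1 hMa => ?_⟩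
  have ha : (0 : ℝ) < a := by
    have : 0 < a := by omega
    exact_mod_cast this
  have hT0 : 0 < TV v a M := by linarith [h.one_le_TV a M]
  have h1 : ENNReal.ofReal (WQ s m M (fun n => x (a + n) ω)) * ENNReal.ofReal (1 / ((a : ℝ) ^ 3 * TV v a M ^ s)) ≤
      ∑' a, F a ω := by
    refine le_trans ?_ (ENNReal.le_tsum a)
    rw [hF]
    exact Finset.single_le_sum (f := fun M => ENNReal.ofReal (WQ s m M (fun n => x (a + n) ω)) *
      ENNReal.ofReal (1 / ((a : ℝ) ^ 3 * TV v a M ^ s)))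
      (fun _ _ => zero_le) (Finset.mem_Icc.2 ⟨hM1, hMa⟩)
  rw [← ENNReal.ofReal_mul (WQ_nonneg _ _ _ _)] at h1
  have h2 := (ENNReal.ofReal_le_iff_le_toReal hω.ne).1 h1
  have h3 := h2.trans (le_max_right 1 _)
  have h4 : (0 : ℝ) < (a : ℝ) ^ 3 * TV v a M ^ s := by positivity
  have h5 : WQ s m M (fun n => x (a + n) ω) = (WQ s m M (fun n => x (a + n) ω) * (1 / ((a : ℝ) ^ 3 * TV v a M ^ s))) *
      ((a : ℝ) ^ 3 * TV v a M ^ s) := by
    field_simp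
  rw [h5]
  exact mul_le_mul_of_nonneg_right h3 h4.le

/-- a uniform bound for all blocks and all polynomials of degree at most `m` -/
def GoodW (m : ℕ) (η : ℝ) (w : ℕ → ℝ) (v : ℕ → ℝ) : Prop :=
  ∃ K : ℝ, 1 ≤ K ∧ ∀ a M : ℕ, 1 ≤ a → M ≤ a → ∀ c : Fin m → ℝ,
    ‖ws m M (fun n => w (a + n)) c‖ ≤ K * (a : ℝ) ^ η * (TV v a M) ^ (1 / 2 : ℝ)

theorem Cen.ae_good {x : ℕ → Ω → ℝ} {v : ℕ → ℝ} (h : Cen μ x v) (m : ℕ) (η : ℝ) (hη : 0 < η) :
    ∀ᵐ ω ∂μ, GoodW m η (fun n => x n ω) v := by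
  obtain ⟨s, hs1, hs2⟩ : ∃ s : ℕ, 1 ≤ s ∧ ((m * (m + 1) / 2 : ℕ) : ℝ) + 3 ≤ 2 * s * η := by
    obtain ⟨s, hs⟩ := exists_nat_ge ((((m * (m + 1) / 2 : ℕ) : ℝ) + 3) / (2 * η))
    refine ⟨s + 1, by omega, ?_⟩
    rw [div_le_iff₀ (by positivity)] at hs
    push_cast
    nlinarith
  filter_upwards [h.ae_fin s m hs1] with ω hω
  obtain ⟨K, hK, hb⟩ := hω
  have hs0 : (1 : ℝ) ≤ (s : ℝ) + 1 := by
    have : (0 : ℝ) ≤ s := by positivity
    linarith
  have hK' : (1 : ℝ) ≤ ((s : ℝ) + 1) ^ m * K := by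
    have := one_le_pow₀ hs0 (n := m)
    nlinarith
  refine ⟨((s : ℝ) + 1) ^ m * K, hK', fun a M ha hM c => ?_⟩
  have ha1 : (1 : ℝ) ≤ a := by exact_mod_cast ha
  have ha0 : (0 : ℝ) < a := by linarith
  have hT1 := h.one_le_TV a M
  have hT0 : 0 < TV v a M := by linarith
  rcases Nat.eq_zero_or_pos M with h0 | h0
  · subst h0
    unfold ws
    simp only [Finset.Icc_eq_empty_of_lt (Nat.zero_lt_one), Finset.sum_empty, norm_zero]
    positivity
  · have h1 := sup_ws s m M (fun n => x (a + n) ω) c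
    have h2 := hb a M h0 hM
    have h3 := card_VV s m M h0
    have h4 : (M : ℝ) ^ (m * (m + 1) / 2) ≤ (a : ℝ) ^ (m * (m + 1) / 2) :=
      pow_le_pow_left₀ (by positivity) (by exact_mod_cast hM) _
    have h5 : ‖ws m M (fun n => x (a + n) ω) c‖ ^ (2 * s) ≤
        (((s : ℝ) + 1) ^ m * (a : ℝ) ^ (m * (m + 1) / 2)) * (K * ((a : ℝ) ^ 3 * TV v a M ^ s)) := by
      refine h1.trans (mul_le_mul (h3.trans (mul_le_mul_of_nonneg_left h4 (by positivity))) h2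
        (WQ_nonneg _ _ _ _) (by positivity))
    have h6 : (a : ℝ) ^ (m * (m + 1) / 2) * (a : ℝ) ^ 3 ≤ ((a : ℝ) ^ η) ^ (2 * s) := by
      rw [← pow_add, ← Real.rpow_natCast, ← Real.rpow_natCast ((a : ℝ) ^ η), ← Real.rpow_mul ha0.le]
      apply Real.rpow_le_rpow_of_exponent_le ha1
      push_cast
      linarith
    have h7 : ((s : ℝ) + 1) ^ m * K ≤ (((s : ℝ) + 1) ^ m * K) ^ (2 * s) := le_self_pow₀ hK' (by omega)
    have h9 : TV v a M ^ s = ((TV v a M) ^ (1 / 2 : ℝ)) ^ (2 * s) := by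
      rw [pow_mul, ← Real.sqrt_eq_rpow, Real.sq_sqrt hT0.le]
    have h8 : ‖ws m M (fun n => x (a + n) ω) c‖ ^ (2 * s) ≤
        (((s : ℝ) + 1) ^ m * K * (a : ℝ) ^ η * (TV v a M) ^ (1 / 2 : ℝ)) ^ (2 * s) := by
      rw [mul_pow, mul_pow]
      refine h5.trans ?_
      calc (((s : ℝ) + 1) ^ m * (a : ℝ) ^ (m * (m + 1) / 2)) * (K * ((a : ℝ) ^ 3 * TV v a M ^ s))
          = (((s : ℝ) + 1) ^ m * K) * ((a : ℝ) ^ (m * (m + 1) / 2) * (a : ℝ) ^ 3) * TV v a M ^ s := by ring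
        _ ≤ (((s : ℝ) + 1) ^ m * K) ^ (2 * s) * ((a : ℝ) ^ η) ^ (2 * s) * ((TV v a M) ^ (1 / 2 : ℝ)) ^ (2 * s) := by
            rw [h9]
            exact mul_le_mul_of_nonneg_right (mul_le_mul h7 h6 (by positivity) (by positivity)) (by positivity)
    exact le_of_pow_le_pow_left₀ (by omega) (by positivity) h8

end Pool.Agent.U922.XQ
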