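import Pool.Agent.U922.XQ.B

/-! # Random weights: all functions of the class at once -/

set_option autoImplicit false
set_option linter.unusedVariables false

open Finset MeasureTheory
open scoped Nat

namespace Pool.Agent.U922.XQ

open Pool.Agent.U922.MV Pool.Agent.U922.XP
open Pool.Agent.W928.MW (e e_add e_norm e_cont e_lip)

/-- one block -/
theorem blockW {m : ℕ} {w v : ℕ → ℝ} {η K : ℝ} (hK : 1 ≤ K) (hw : ∀ n, |w n| ≤ 1) (hv : ∀ n, 0 ≤ v n)
    (hG : ∀ a M : ℕ, 1 ≤ a → M ≤ a → ∀ c : Fin m → ℝ,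
      ‖ws m M (fun n => w (a + n)) c‖ ≤ K * (a : ℝ) ^ η * (TV v a M) ^ (1 / 2 : ℝ))
    {f : ℝ → ℝ} {l r C : ℝ} (hf : ContDiffOn ℝ ((m + 1 : ℕ) : WithTop ℕ∞) f (Set.Icc l r)) (hC0 : 0 ≤ C)
    (hC : ∀ y ∈ Set.Icc l r, |iteratedDerivWithin (m + 1) f (Set.Icc l r) y| ≤ C)
    {a b L : ℕ} (hla : l ≤ a) (hab : a ≤ b) (hbr : (b : ℝ) ≤ r) (hbL : b ≤ a + L) (hLa : L ≤ a) (ha : 1 ≤ a)
    {S : ℝ} (hS : ∑ n ∈ Ioc a b, v n ≤ S) :
    ‖∑ n ∈ Ioc a b, (w n : ℂ) * e (f n)‖ ≤ K * (a : ℝ) ^ η * (1 + S) ^ (1 / 2 : ℝ) +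
      L * (2 * Real.pi * (C * (L : ℝ) ^ (m + 1))) := by
  have hS0 : 0 ≤ S := (Finset.sum_nonneg fun n _ => hv n).trans hS
  obtain ⟨M, hM⟩ : ∃ M, b = a + M := ⟨b - a, by omega⟩
  rcases Nat.eq_zero_or_pos M with h0 | h0
  · subst h0
    rw [hM]
    simp only [add_zero, Finset.Ioc_self, Finset.sum_empty, norm_zero]
    positivity
  have hML : M ≤ L := by omega
  have hab' : (a : ℝ) < b := by
    have : a < b := by omega
    exact_mod_cast this
  set c : Fin m → ℝ := fun j => ((((j : ℕ) + 1)! : ℕ) : ℝ)⁻¹ * iteratedDerivWithin ((j : ℕ) + 1) f (Set.Icc l r) a with hc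
  have h1 : ∀ n ∈ Icc 1 M, |f ((a + n : ℕ) : ℝ) - (f a + lo m c n)| ≤ C * (L : ℝ) ^ (m + 1) := by
    intro n hn
    rw [Finset.mem_Icc] at hn
    have hx : ((a + n : ℕ) : ℝ) ∈ Set.Icc (a : ℝ) b := by
      constructor
      · push_cast; linarith [(Nat.cast_nonneg n : (0 : ℝ) ≤ n)]
      · exact_mod_cast (by omega : a + n ≤ b)
    have h2 := taylor_block (n := m) hf hla hab' hbr hC hx
    have h3 : ((a + n : ℕ) : ℝ) - a = n := by push_cast; ring
    rw [h3] at h2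
    have h4 : ∑ k ∈ Finset.range (m + 1), ((k ! : ℝ)⁻¹ * (n : ℝ) ^ k) * iteratedDerivWithin k f (Set.Icc l r) a =
        f a + lo m c n := by
      rw [Finset.sum_range_succ', Finset.sum_range, add_comm]
      congr 1
      · simp
      · unfold lo
        refine sum_congr rfl fun j _ => ?_
        rw [hc]
        simp only
        ring
    rw [h4] at h2
    refine h2.trans (mul_le_mul_of_nonneg_left ?_ hC0)
    exact pow_le_pow_left₀ (by positivity) (by exact_mod_cast hn.2.trans hML) _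
  have h2 : ∑ n ∈ Ioc a b, (w n : ℂ) * e (f n) = (∑ n ∈ Icc 1 M, (w (a + n) : ℂ) * (e (f ((a + n : ℕ) : ℝ)) -
      e (f a + lo m c n))) + e (f a) * ws m M (fun n => w (a + n)) c := by
    rw [hM, sum_Ioc_shift (fun n : ℕ => (w n : ℂ) * e (f n)) a M]
    simp_rw [mul_sub]
    rw [Finset.sum_sub_distrib]
    have h3 : ∑ n ∈ Icc 1 M, (w (a + n) : ℂ) * e (f a + lo m c n) = e (f a) * ws m M (fun n => w (a + n)) c := by
      unfold ws
      rw [Finset.mul_sum]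
      refine Finset.sum_congr rfl fun n _ => ?_
      rw [e_add]
      ring
    rw [h3]
    ring
  rw [h2]
  refine (norm_add_le _ _).trans ?_
  have h3 : ‖e (f a) * ws m M (fun n => w (a + n)) c‖ ≤ K * (a : ℝ) ^ η * (1 + S) ^ (1 / 2 : ℝ) := by
    rw [norm_mul, e_norm, one_mul]
    refine (hG a M ha (hML.trans hLa) c).trans ?_
    have h4 : TV v a M ≤ 1 + S := by
      unfold TV
      have h5 : ∑ n ∈ Icc 1 M, v (a + n) = ∑ n ∈ Ioc a b, v n := by
        rw [hM]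
        refine Finset.sum_nbij' (fun n => a + n) (fun n => n - a) ?_ ?_ ?_ ?_ ?_
        · intro n hn
          rw [Finset.mem_Icc] at hn
          rw [Finset.mem_Ioc]
          omega
        · intro n hn
          rw [Finset.mem_Ioc] at hn
          rw [Finset.mem_Icc]
          omega
        · intro n hn
          show a + n - a = n
          omega
        · intro n hn
          rw [Finset.mem_Ioc] at hn
          show a + (n - a) = n
          omega
        · intro n hn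
          rfl
      rw [h5]
      linarith
    have h5 : 0 ≤ TV v a M := by
      unfold TV
      have : 0 ≤ ∑ n ∈ Icc 1 M, v (a + n) := Finset.sum_nonneg fun n _ => hv _
      linarith
    exact mul_le_mul_of_nonneg_left (Real.rpow_le_rpow h5 h4 (by norm_num)) (by positivity)
  have h4 : ‖∑ n ∈ Icc 1 M, (w (a + n) : ℂ) * (e (f ((a + n : ℕ) : ℝ)) - e (f a + lo m c n))‖ ≤
      L * (2 * Real.pi * (C * (L : ℝ) ^ (m + 1))) := by
    refine (norm_sum_le _ _).trans ?_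
    have h5 : ∀ n ∈ Icc 1 M, ‖(w (a + n) : ℂ) * (e (f ((a + n : ℕ) : ℝ)) - e (f a + lo m c n))‖ ≤
        2 * Real.pi * (C * (L : ℝ) ^ (m + 1)) := by
      intro n hn
      rw [norm_mul, Complex.norm_real, Real.norm_eq_abs]
      have h6 : ‖e (f ((a + n : ℕ) : ℝ)) - e (f a + lo m c n)‖ ≤ 2 * Real.pi * (C * (L : ℝ) ^ (m + 1)) :=
        (e_lip _ _).trans (mul_le_mul_of_nonneg_left (h1 n hn) (by positivity))
      calc |w (a + n)| * ‖e (f ((a + n : ℕ) : ℝ)) - e (f a + lo m c n)‖ ≤ 1 * (2 * Real.pi * (C * (L : ℝ) ^ (m + 1))) :=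
            mul_le_mul (hw _) h6 (norm_nonneg _) zero_le_one
        _ = _ := one_mul _
    refine (Finset.sum_le_card_nsmul _ _ _ h5).trans ?_
    rw [Nat.card_Icc, Nat.add_sub_cancel, nsmul_eq_mul]
    exact mul_le_mul_of_nonneg_right (by exact_mod_cast hML) (by positivity)
  linarith

/-- **the deterministic part** -/
theorem detW {m : ℕ} {w v : ℕ → ℝ} {ε : ℝ} (hε : 0 < ε) (hm : 1 / ε + 1 ≤ ε / 2 * (m + 1))
    (hw : ∀ n, |w n| ≤ 1) (hv : ∀ n, 0 ≤ v n) (hG : GoodW m (ε / 2) w v) (C : ℝ) (hCm : 0 < C) :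
    ∃ K : ℝ, 0 ≤ K ∧ ∀ N N' F : ℝ, ∀ f : ℝ → ℝ, 2 ≤ N → N ≤ N' → N' ≤ 2 * N → N ≤ F →
      ContDiffOn ℝ ((m + 1 : ℕ) : WithTop ℕ∞) f (Set.Icc N (2 * N)) →
      (∀ x ∈ Set.Icc N (2 * N), |iteratedDerivWithin (m + 1) f (Set.Icc N (2 * N)) x| ≤ C * F / N ^ (m + 1)) →
      ‖∑ n ∈ Finset.Icc ⌈N⌉₊ ⌊N'⌋₊, (w n : ℂ) * e (f n)‖ ≤
        K * (1 + ∑ n ∈ Finset.Icc ⌈N⌉₊ ⌊2 * N⌋₊, v n) ^ (1 / 2 : ℝ) * F ^ ε := by
  obtain ⟨K, hK, hG⟩ := hG
  obtain ⟨E, hE⟩ : ∃ E : ℝ, E = 4 * Real.pi * C * 2 ^ (m + 1) := ⟨_, rfl⟩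
  have hE0 : 0 < E := by rw [hE]; positivity
  refine ⟨1 + 3 * (2 * K + E), by positivity, ?_⟩
  intro N N' F f hN2 hNN' hN'2 hNF hf hder
  have hN0 : 0 < N := by linarith
  have hN1 : 1 ≤ N := by linarith
  have hF0 : 0 < F := by linarith
  have hFe : 0 < F ^ ε := Real.rpow_pos_of_pos hF0 _
  obtain ⟨S, hS⟩ : ∃ S : ℝ, S = ∑ n ∈ Finset.Icc ⌈N⌉₊ ⌊2 * N⌋₊, v n := ⟨_, rfl⟩
  rw [← hS]
  have hS0 : 0 ≤ S := by rw [hS]; exact Finset.sum_nonneg fun n _ => hv n
  obtain ⟨R, hR⟩ : ∃ R : ℝ, R = (1 + S) ^ (1 / 2 : ℝ) := ⟨_, rfl⟩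
  rw [← hR]
  have hR1 : 1 ≤ R := by rw [hR]; exact Real.one_le_rpow (by linarith) (by norm_num)
  -- number of terms
  have hcard : ((Finset.Icc ⌈N⌉₊ ⌊N'⌋₊).card : ℝ) ≤ 2 * N := by
    rw [Nat.card_Icc]
    rcases Nat.lt_or_ge ⌊N'⌋₊ ⌈N⌉₊ with h | h
    · have : ⌊N'⌋₊ + 1 - ⌈N⌉₊ = 0 := by omega
      rw [this]; push_cast; linarith
    · rw [Nat.cast_sub (by omega)]
      push_cast
      have h1 := Nat.floor_le (by linarith : 0 ≤ N')
      have h2 := Nat.le_ceil N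
      linarith
  have hterm : ∀ n : ℕ, ‖(w n : ℂ) * e (f n)‖ ≤ 1 := by
    intro n
    rw [norm_mul, e_norm, mul_one, Complex.norm_real, Real.norm_eq_abs]
    exact hw n
  rcases le_or_gt N (F ^ ε) with hcase | hcase
  · have h1 : ‖∑ n ∈ Finset.Icc ⌈N⌉₊ ⌊N'⌋₊, (w n : ℂ) * e (f n)‖ ≤ 2 * N := by
      refine (norm_sum_le _ _).trans ?_
      refine (Finset.sum_le_card_nsmul _ _ 1 fun n _ => hterm n).trans ?_
      rw [nsmul_eq_mul, mul_one]
      exact hcard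
    refine h1.trans ?_
    have h2 : (2 : ℝ) * N ≤ 2 * F ^ ε := by linarith
    refine h2.trans (mul_le_mul_of_nonneg_right ?_ hFe.le)
    nlinarith
  · -- the main case
    have hF1 : F ≤ N ^ (1 / ε) := by
      have h2 := Real.rpow_le_rpow hFe.le hcase.le (by positivity : (0 : ℝ) ≤ 1 / ε)
      rw [← Real.rpow_mul hF0.le] at h2
      have e1 : ε * (1 / ε) = 1 := by field_simp
      rw [e1, Real.rpow_one] at h2
      exact h2
    have hε1 : ε < 1 := by
      by_contra hcon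
      push Not at hcon
      have h1 : N ≤ N ^ ε := by
        calc N = N ^ (1 : ℝ) := (Real.rpow_one N).symm
          _ ≤ _ := Real.rpow_le_rpow_of_exponent_le hN1 hcon
      have h2 : N ^ ε ≤ F ^ ε := Real.rpow_le_rpow hN0.le hNF hε.le
      linarith
    obtain ⟨δ, hδ⟩ : ∃ δ : ℝ, δ = ε / 2 := ⟨_, rfl⟩
    have hδ0 : 0 < δ := by linarith
    have hm' : 1 / ε + 1 ≤ δ * (m + 1) := by rw [hδ]; exact hm
    obtain ⟨X, hX⟩ : ∃ X : ℝ, X = N ^ (1 - δ) := ⟨_, rfl⟩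
    have hX1 : 1 ≤ X := by rw [hX]; exact Real.one_le_rpow hN1 (by linarith)
    have hXN : X ≤ N := by
      rw [hX]
      calc N ^ (1 - δ) ≤ N ^ (1 : ℝ) := Real.rpow_le_rpow_of_exponent_le hN1 (by linarith)
        _ = N := Real.rpow_one N
    have hXd : X * N ^ δ = N := by
      rw [hX, ← Real.rpow_add hN0]; simp
    have hNd : 1 ≤ N ^ δ := Real.one_le_rpow hN1 hδ0.le
    obtain ⟨L, hL⟩ : ∃ L : ℕ, L = ⌈X⌉₊ := ⟨_, rfl⟩
    have hLX : X ≤ L := by rw [hL]; exact Nat.le_ceil X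
    have hL2 : (L : ℝ) ≤ 2 * X := by
      have := Nat.ceil_lt_add_one (by linarith : 0 ≤ X)
      rw [← hL] at this
      linarith
    have hLN : L ≤ ⌈N⌉₊ := by rw [hL]; exact Nat.ceil_mono hXN
    obtain ⟨T, hT⟩ : ∃ T : ℕ, T = ⌈(N + 1) / X⌉₊ := ⟨_, rfl⟩
    have hTX : N + 1 ≤ T * X := by
      have := Nat.le_ceil ((N + 1) / X)
      rw [← hT, div_le_iff₀ (by linarith)] at this
      exact this
    have hT3 : (T : ℝ) ≤ 3 * N ^ δ := by
      have h1 := Nat.ceil_lt_add_one (by positivity : 0 ≤ (N + 1) / X)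
      rw [← hT] at h1
      have h2 : (N + 1) / X ≤ 2 * N ^ δ := by
        rw [div_le_iff₀ (by linarith)]
        nlinarith
      linarith
    have hTL : N + 1 ≤ T * L := hTX.trans (mul_le_mul_of_nonneg_left hLX (by positivity))
    rcases Nat.lt_or_ge ⌊N'⌋₊ ⌈N⌉₊ with hlt | hge
    · rw [Finset.Icc_eq_empty_of_lt hlt, Finset.sum_empty, norm_zero]
      positivity
    have hB : (⌊N'⌋₊ : ℝ) ≤ N' := Nat.floor_le (by linarith)
    have hB2 : ⌊N'⌋₊ ≤ ⌊2 * N⌋₊ := Nat.floor_mono hN'2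
    have hA : N ≤ (⌈N⌉₊ : ℝ) := Nat.le_ceil N
    have hA1 : 1 ≤ ⌈N⌉₊ := Nat.one_le_iff_ne_zero.2 (by
      intro h
      rw [h] at hA
      push_cast at hA
      linarith)
    have hNη : 1 ≤ N ^ (ε / 2) := Real.one_le_rpow hN1 (by linarith)
    have hblk := blocks (fun n : ℕ => (w n : ℂ) * e (f n)) ⌈N⌉₊ ⌊N'⌋₊ L ((2 * K + E) * N ^ (ε / 2) * R) (by
      intro a b ha hab hb hbL
      have haN : N ≤ (a : ℝ) := hA.trans (by exact_mod_cast ha)
      have hbN : (b : ℝ) ≤ 2 * N := by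
        have : (b : ℝ) ≤ (⌊N'⌋₊ : ℝ) := by exact_mod_cast hb
        linarith
      have hSv : ∑ n ∈ Ioc a b, v n ≤ S := by
        rw [hS]
        refine Finset.sum_le_sum_of_subset_of_nonneg ?_ fun n _ _ => hv n
        intro n hn
        rw [Finset.mem_Ioc] at hn
        rw [Finset.mem_Icc]
        omega
      have h1 := blockW (m := m) (η := ε / 2) hK hw hv hG hf
        (C := C * F / N ^ (m + 1)) (by positivity) hder (a := a) (b := b) (L := L) haN hab hbN hbL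
        (hLN.trans ha) (hA1.trans ha) hSv
      rw [← hR] at h1
      refine h1.trans ?_
      have ha2 : (a : ℝ) ≤ 2 * N := by
        have : (a : ℝ) ≤ b := by exact_mod_cast hab
        linarith
      have h2 : (a : ℝ) ^ (ε / 2) ≤ 2 * N ^ (ε / 2) := by
        refine (Real.rpow_le_rpow (by positivity) ha2 (by linarith)).trans ?_
        rw [Real.mul_rpow (by norm_num) hN0.le]
        refine mul_le_mul_of_nonneg_right ?_ (by positivity)
        calc (2 : ℝ) ^ (ε / 2) ≤ 2 ^ (1 : ℝ) := Real.rpow_le_rpow_of_exponent_le (by norm_num) (by linarith)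
          _ = 2 := Real.rpow_one 2
      have h3 : (L : ℝ) * (2 * Real.pi * (C * F / N ^ (m + 1) * (L : ℝ) ^ (m + 1))) ≤ E := by
        have h4 : (L : ℝ) ^ (m + 1) ≤ 2 ^ (m + 1) * (N ^ (m + 1) * N ^ (-(δ * (m + 1)))) := by
          refine (pow_le_pow_left₀ (by positivity) hL2 _).trans (le_of_eq ?_)
          rw [mul_pow]
          congr 1
          rw [hX, ← Real.rpow_natCast, ← Real.rpow_mul hN0.le, ← Real.rpow_natCast N, ← Real.rpow_add hN0]
          congr 1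
          push_cast
          ring
        have h5 : F * N ^ (-(δ * (m + 1))) ≤ N⁻¹ := by
          refine (mul_le_mul_of_nonneg_right hF1 (by positivity)).trans ?_
          rw [← Real.rpow_add hN0, ← Real.rpow_neg_one]
          apply Real.rpow_le_rpow_of_exponent_le hN1
          linarith
        have h6 : (L : ℝ) ≤ 2 * N := by linarith
        have h7 : C * F / N ^ (m + 1) * (L : ℝ) ^ (m + 1) ≤ C * 2 ^ (m + 1) * N⁻¹ := by
          have h8 : C * F / N ^ (m + 1) * (L : ℝ) ^ (m + 1) ≤ C * F / N ^ (m + 1) *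
              (2 ^ (m + 1) * (N ^ (m + 1) * N ^ (-(δ * (m + 1))))) := mul_le_mul_of_nonneg_left h4 (by positivity)
          refine h8.trans ?_
          have h9 : C * F / N ^ (m + 1) * (2 ^ (m + 1) * (N ^ (m + 1) * N ^ (-(δ * (m + 1))))) =
              C * 2 ^ (m + 1) * (F * N ^ (-(δ * (m + 1)))) := by
            field_simp
          rw [h9]
          exact mul_le_mul_of_nonneg_left h5 (by positivity)
        calc (L : ℝ) * (2 * Real.pi * (C * F / N ^ (m + 1) * (L : ℝ) ^ (m + 1)))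
            ≤ (2 * N) * (2 * Real.pi * (C * 2 ^ (m + 1) * N⁻¹)) :=
              mul_le_mul h6 (mul_le_mul_of_nonneg_left h7 (by positivity)) (by positivity) (by positivity)
          _ = E := by rw [hE]; field_simp; ring
      have h4 : K * (a : ℝ) ^ (ε / 2) * R ≤ 2 * K * N ^ (ε / 2) * R := by
        refine mul_le_mul_of_nonneg_right ?_ (by linarith)
        calc K * (a : ℝ) ^ (ε / 2) ≤ K * (2 * N ^ (ε / 2)) := mul_le_mul_of_nonneg_left h2 (by linarith)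
          _ = _ := by ring
      have h5 : E ≤ E * (N ^ (ε / 2) * R) := by
        have : 1 ≤ N ^ (ε / 2) * R := by nlinarith
        nlinarith
      linarith) T ⌈N⌉₊ le_rfl hge (by
      have h1 : (⌊N'⌋₊ : ℝ) ≤ ((⌈N⌉₊ + T * L : ℕ) : ℝ) := by
        push_cast
        linarith
      exact_mod_cast h1)
    have hsplit : ∑ n ∈ Finset.Icc ⌈N⌉₊ ⌊N'⌋₊, (w n : ℂ) * e (f n) = (w ⌈N⌉₊ : ℂ) * e (f (⌈N⌉₊ : ℝ)) +
        ∑ n ∈ Ioc ⌈N⌉₊ ⌊N'⌋₊, (w n : ℂ) * e (f n) := by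
      rw [← Finset.add_sum_Ioc_eq_sum_Icc hge]
    rw [hsplit]
    refine (norm_add_le _ _).trans ?_
    have h1 : (T : ℝ) * ((2 * K + E) * N ^ (ε / 2) * R) ≤ 3 * (2 * K + E) * R * N ^ ε := by
      have h2 : N ^ ε = N ^ δ * N ^ (ε / 2) := by
        rw [← Real.rpow_add hN0]
        congr 1
        rw [hδ]
        ring
      rw [h2]
      calc (T : ℝ) * ((2 * K + E) * N ^ (ε / 2) * R) ≤ (3 * N ^ δ) * ((2 * K + E) * N ^ (ε / 2) * R) :=
            mul_le_mul_of_nonneg_right hT3 (by positivity)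
        _ = _ := by ring
    have h2 : 1 ≤ N ^ ε := Real.one_le_rpow hN1 hε.le
    have h3 : N ^ ε ≤ F ^ ε := Real.rpow_le_rpow hN0.le hNF hε.le
    have h4 : 1 + (T : ℝ) * ((2 * K + E) * N ^ (ε / 2) * R) ≤ (1 + 3 * (2 * K + E)) * R * N ^ ε := by
      have h5 : 1 ≤ R * N ^ ε := by nlinarith
      have h6 : (1 + 3 * (2 * K + E)) * R * N ^ ε = R * N ^ ε + 3 * (2 * K + E) * R * N ^ ε := by ring
      linarith
    refine (add_le_add (hterm _) hblk).trans (h4.trans ?_)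
    exact mul_le_mul_of_nonneg_left h3 (by positivity)

end Pool.Agent.U922.XQ
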